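import Pool.Agent.H509.BT.Stm1

/-!
# The symbols `fr D d` and the Artin map
-/

set_option autoImplicit false
set_option linter.unusedSectionVars false
set_option linter.deprecated false

open NumberField IsDedekindDomain Filter Topology Module

noncomputable section

namespace Pool.Agent.H115.BT

open Pool.Agent.Q92.AR (Dv prin Pr Ray nmD nu up sD puD Cong Pos frob IsFrobenius Unramified Ram art
  prin_mul prin_one prin_inv frob_spec art_single)
open Pool.Agent.K3h30.RS
open Pool.Agent.K3h56.E2 (Quad Dict)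
open Pool.Agent.BT9 (fr frH fr_single)

section
variable {F H G : Type} [Field F] [NumberField F] [Field H] [NumberField H] [Algebra F H]
  [CommGroup G] [Finite G] [MulSemiringAction G H]

/-- additivity -/
theorem art_of {E : Type} [Field E] [NumberField E] [Algebra F E] (D : RubinData F H G)
    (ψ : (E ≃ₐ[F] E) →* ℂˣ) (χ : G →* ℂˣ) (key : ∀ v, v ∉ D.S → ψ (frob E v) = χ (D.σ v))
    (d : Dv F) (hd : ∀ v ∈ D.S, d v = 0) : art ψ d = Additive.ofMul (χ (fr D d)) := by
  classical
  have hT : ∀ (v : HeightOneSpectrum (𝓞 F)) (k : ℤ), v ∉ D.S →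
      (MonoidHom.toAdditive χ).comp (frH D) (Finsupp.single v k) =
        k • Additive.ofMul (ψ (frob E v)) := by
    intro v k hv
    have h1 := fr_single D hv k
    change Additive.ofMul (χ (fr D (Finsupp.single v k))) = _
    rw [h1, key v hv, map_zpow, ofMul_zpow]
  change art ψ d = (MonoidHom.toAdditive χ).comp (frH D) d
  rw [Pool.Agent.Q125.AR.art_eq_sum]
  conv_rhs => rw [← Finsupp.sum_single d]
  rw [Finsupp.sum, map_sum]
  refine Finset.sum_congr rfl fun v hv => ?_
  rw [hT]
  intro hvS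
  exact (Finsupp.mem_support_iff.1 hv) (hd v hvS)

variable [IsGaloisGroup G F H]

/-- `σ_v` as an automorphism of `H` is a Frobenius element -/
theorem isFrobenius_of (D : RubinData F H G) {v : HeightOneSpectrum (𝓞 F)} (hv : v ∉ D.S)
    {g : H ≃ₐ[F] H} (hg : ∀ x : H, g x = D.σ v • x) : IsFrobenius v g := by
  have hgal : IsGalois F H := IsGaloisGroup.isGalois G F H
  obtain ⟨w, hw, hwv, -⟩ := frob_spec (M := H) v
  refine ⟨w, hw, hwv, fun x => ?_⟩
  have hw0 : w ≠ ⊥ := by
    rintro rfl
    apply v.ne_bot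
    rw [← hwv, ← RingHom.ker_eq_comap_bot]
    exact (RingHom.injective_iff_ker_eq_bot _).1 (FaithfulSMul.algebraMap_injective (𝓞 F) (𝓞 H))
  let W : HeightOneSpectrum (𝓞 H) := ⟨w, hw.isPrime, hw0⟩
  have hgx : IsIntegral ℤ (g (x : H)) := x.2.map g
  refine ⟨⟨g (x : H), hgx⟩ - x ^ (Ideal.absNorm v.asIdeal), ?_, ?_⟩
  · have h1 := D.frob v hv W ⟨v, rfl, hwv⟩ x
    rw [← hg] at h1
    change (⟨g (x : H), hgx⟩ - x ^ (Ideal.absNorm v.asIdeal) : 𝓞 H) ∈ W.asIdeal
    rw [← HeightOneSpectrum.valuation_lt_one_iff_mem (K := H)]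
    exact h1
  · rfl

end

/-- BRI -/
theorem bri : Pool.Agent.BT9.S_BRI := by
  intro F H G _ _ _ _ _ _ _ _ _ D ψ d hd
  have hgal : IsGalois F H := IsGaloisGroup.isGalois G F H
  refine art_of D _ ψ (fun v hv => ?_) d hd
  obtain ⟨g, hg⟩ := Pool.Agent.H509.Rec.exists_eK F F H G (D.σ v) (fun x => smul_algebraMap _ x)
  have h1 : IsFrobenius v g := isFrobenius_of D hv fun x => by
    rw [← hg, Pool.Agent.H509.Rec.eK_smul]
  have h2 := Pool.Agent.Q125.AR.chi_frob
    (Pool.Agent.H509.Rec.unr_of_squarefree (D.unramified v hv)) (frob_spec (M := H) v) h1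
    (ψ.comp (Pool.Agent.H509.Rec.eK F F H G))
  rw [h2, MonoidHom.comp_apply, hg]

/-- BRK -/
theorem brk : Pool.Agent.BT9.S_BRK := by
  intro F H G K _ _ _ _ _ _ _ _ _ _ _ _ _ _ τ χ hD D ψ hψ d hd
  have htower : IsScalarTower F K H := hD.tower
  have hgal : IsGalois F H := IsGaloisGroup.isGalois G F H
  refine art_of D ψ χ (fun v hv => ?_) d hd
  obtain ⟨g, hg⟩ := Pool.Agent.H509.Rec.exists_eK F F H G (D.σ v) (fun x => smul_algebraMap _ x)
  have hgx : ∀ x : H, g x = D.σ v • x := fun x => by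
    rw [← hg, Pool.Agent.H509.Rec.eK_smul]
  have h1 : IsFrobenius v g := isFrobenius_of D hv hgx
  have h2 : IsFrobenius v (AlgEquiv.restrictNormal g K) := Pool.Agent.Q225.AR.fr.1 F K H v g h1
  have hu : Unramified K v := Pool.Agent.Q92.AR.Unramified.sub
    (Pool.Agent.H509.Rec.unr_of_squarefree (D.unramified v hv))
  have h3 := Pool.Agent.Q125.AR.chi_frob hu (frob_spec (M := K) v) h2 ψ
  rw [h3]
  have h4 : ∀ x : K, algebraMap K H (AlgEquiv.restrictNormal g K x) =
      D.σ v • algebraMap K H x := fun x => by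
    rw [AlgEquiv.restrictNormal_commutes, hgx]
  have hinj : Function.Injective (algebraMap K H) := FaithfulSMul.algebraMap_injective K H
  by_cases hc : χ (D.σ v) = 1
  · have h5 : AlgEquiv.restrictNormal g K = 1 := by
      ext x
      apply hinj
      rw [h4, hD.one _ hc]
      rfl
    rw [h5, map_one, hc]
  · have h5 : AlgEquiv.restrictNormal g K = τ := by
      ext x
      apply hinj
      rw [h4, hD.neg _ hc]
    have h6 : τ * τ = 1 := by
      ext x
      apply hinj
      have e1 := hD.neg _ hc x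
      have e2 := hD.neg _ hc (τ x)
      have e3 : D.σ v • D.σ v • algebraMap K H x = algebraMap K H (τ (τ x)) := by
        rw [e1, e2]
      have e4 := hD.one (D.σ v * D.σ v) (by rw [map_mul]; exact hD.sq _) x
      rw [mul_smul, e3] at e4
      exact e4
    have h7 : ∀ z : ℂˣ, z * z = 1 → z ≠ 1 → z = -1 := by
      intro z hz hz1
      have e1 : (z : ℂ) * z = 1 := by
        rw [← Units.val_mul, hz, Units.val_one]
      rcases mul_self_eq_one_iff.1 e1 with h | h
      · exact absurd (Units.ext h) hz1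
      · apply Units.ext
        rw [h, Units.val_neg, Units.val_one]
    rw [h5, h7 _ (hD.sq _) hc]
    refine h7 _ (by rw [← map_mul, h6, map_one]) fun h => ?_
    exact hD.quad.ne (hψ (h.trans (map_one ψ).symm))

end Pool.Agent.H115.BT
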